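import Mathlib

/-!
# Theorem M, block B: spreading out

If equations never hold at points with `(c, w)` independent over `ℚ`, then for general `c` over any
field they never hold at points with `w` independent over that field.
-/

set_option autoImplicit false

namespace Pool.Agent.Helper16.M

open MvPolynomial

variable {ι κ ν : Type}

/-- The inclusion of the polynomials in `c, w` in the polynomials in `c, w, v`. -/
def incl : ι ⊕ κ → ι ⊕ (κ ⊕ ν) := Sum.elim Sum.inl (Sum.inr ∘ Sum.inl)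

/-- The ideal of the equations contains a nonzero polynomial in `c, w`. -/
theorem exists_elim (G : Set (MvPolynomial (ι ⊕ (κ ⊕ ν)) ℚ))
    (h : ∀ (Ω : Type) [Field Ω] [CharZero Ω] (c : ι → Ω) (w : κ → Ω) (v : ν → Ω),
      (∀ g ∈ G, aeval (Sum.elim c (Sum.elim w v)) g = 0) →
        ¬ AlgebraicIndependent ℚ (Sum.elim c w)) :
    ∃ p : MvPolynomial (ι ⊕ κ) ℚ, p ≠ 0 ∧ rename incl p ∈ Ideal.span G := by
  by_contra hc
  push Not at hc
  have hinj : Function.Injective (incl : ι ⊕ κ → ι ⊕ (κ ⊕ ν)) := by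
    rintro (a | a) (b | b) hab
    · simpa [incl] using hab
    · simp [incl] at hab
    · simp [incl] at hab
    · simpa [incl] using hab
  let φ : MvPolynomial (ι ⊕ κ) ℚ →ₐ[ℚ] MvPolynomial (ι ⊕ (κ ⊕ ν)) ℚ := rename incl
  let M : Submonoid (MvPolynomial (ι ⊕ (κ ⊕ ν)) ℚ) :=
    (nonZeroDivisors (MvPolynomial (ι ⊕ κ) ℚ)).map φ
  have hdis : Disjoint (Ideal.span G : Set (MvPolynomial (ι ⊕ (κ ⊕ ν)) ℚ)) M := by
    rw [Set.disjoint_left]
    rintro x hx ⟨p, hp, rfl⟩
    exact hc p (nonZeroDivisors.ne_zero hp) hx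
  obtain ⟨P, hP, hle, hPd⟩ := Ideal.exists_le_prime_disjoint (Ideal.span G) M hdis
  let Q := MvPolynomial (ι ⊕ (κ ⊕ ν)) ℚ ⧸ P
  let Ω := FractionRing Q
  have : CharZero Ω := charZero_of_injective_algebraMap (algebraMap ℚ Ω).injective
  let f : MvPolynomial (ι ⊕ (κ ⊕ ν)) ℚ →ₐ[ℚ] Ω :=
    (IsScalarTower.toAlgHom ℚ Q Ω).comp (Ideal.Quotient.mkₐ ℚ P)
  have hf : ∀ x, f x = 0 ↔ x ∈ P := by
    intro x
    change algebraMap Q Ω (Ideal.Quotient.mk P x) = 0 ↔ _
    rw [FaithfulSMul.algebraMap_eq_zero_iff Q Ω, Ideal.Quotient.eq_zero_iff_mem]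
  let c : ι → Ω := fun i => f (X (Sum.inl i))
  let w : κ → Ω := fun i => f (X (Sum.inr (Sum.inl i)))
  let v : ν → Ω := fun i => f (X (Sum.inr (Sum.inr i)))
  have hfa : ∀ x, aeval (Sum.elim c (Sum.elim w v)) x = f x := by
    intro x
    have : (aeval (Sum.elim c (Sum.elim w v)) : _ →ₐ[ℚ] Ω) = f := by
      apply MvPolynomial.algHom_ext
      rintro (i | i | i) <;> simp [c, w, v]
    exact DFunLike.congr_fun this x
  have hfb : ∀ p : MvPolynomial (ι ⊕ κ) ℚ, aeval (Sum.elim c w) p = f (φ p) := by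
    intro p
    have : (aeval (Sum.elim c w) : _ →ₐ[ℚ] Ω) = f.comp φ := by
      apply MvPolynomial.algHom_ext
      rintro (i | i) <;> simp [c, w, φ, incl]
    exact DFunLike.congr_fun this p
  have key := h Ω c w v
  have hA : (DivisionRing.toRatAlgebra : Algebra ℚ Ω) = inferInstanceAs (Algebra ℚ Ω) :=
    Subsingleton.elim _ _
  refine key ?_ ?_
  · intro g hg
    have h1 := (hf g).2 (hle (Ideal.subset_span hg))
    rw [← hfa g] at h1
    convert h1
  · have : AlgebraicIndependent ℚ (Sum.elim c w) := by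
      rw [algebraicIndependent_iff]
      intro p hp
      by_contra h0
      rw [hfb p, hf] at hp
      have : φ p ∈ M := ⟨p, mem_nonZeroDivisors_of_ne_zero h0, rfl⟩
      exact Set.disjoint_left.1 hPd hp this
    convert this

/-- Spreading out. -/
theorem spread (G : Set (MvPolynomial (ι ⊕ (κ ⊕ ν)) ℚ))
    (h : ∀ (Ω : Type) [Field Ω] [CharZero Ω] (c : ι → Ω) (w : κ → Ω) (v : ν → Ω),
      (∀ g ∈ G, aeval (Sum.elim c (Sum.elim w v)) g = 0) →
        ¬ AlgebraicIndependent ℚ (Sum.elim c w)) :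
    ∃ Δ : MvPolynomial ι ℚ, Δ ≠ 0 ∧ ∀ (K : Type) [Field K] [CharZero K] (c : ι → K),
      aeval c Δ ≠ 0 → ∀ (Ω : Type) [Field Ω] [CharZero Ω] [Algebra K Ω] (w : κ → Ω) (v : ν → Ω),
        AlgebraicIndependent K w →
          ¬ ∀ g ∈ G, aeval (Sum.elim (fun i => algebraMap K Ω (c i)) (Sum.elim w v)) g = 0 := by
  obtain ⟨p, hp0, hp⟩ := exists_elim G h
  let q : MvPolynomial κ (MvPolynomial ι ℚ) := sumAlgEquiv ℚ κ ι (rename Sum.swap p)
  have hq : q ≠ 0 := by
    intro h0
    have h1 : rename Sum.swap p = 0 := (sumAlgEquiv ℚ κ ι).injective (by rw [map_zero]; exact h0)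
    exact hp0 (rename_injective _ Sum.swap_leftInverse.injective (by rw [h1, map_zero]))
  obtain ⟨m, hm⟩ := MvPolynomial.ne_zero_iff.1 hq
  refine ⟨coeff m q, hm, ?_⟩
  intro K _ _ c hc Ω _ _ _ w v hw hall
  set q' : MvPolynomial κ K := map (aeval c : MvPolynomial ι ℚ →ₐ[ℚ] K).toRingHom q with hq'
  have h1 : q' ≠ 0 := by
    intro h0
    apply hc
    have := congrArg (coeff m) h0
    rw [hq', coeff_map, coeff_zero] at this
    exact this
  have h2 : aeval w q' = 0 := by
    have h3 : aeval (Sum.elim (fun i => algebraMap K Ω (c i)) (Sum.elim w v)) (rename incl p) =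
        (0 : Ω) := by
      have hle : Ideal.span G ≤ RingHom.ker (aeval (Sum.elim (fun i => algebraMap K Ω (c i))
          (Sum.elim w v)) : MvPolynomial (ι ⊕ (κ ⊕ ν)) ℚ →ₐ[ℚ] Ω) := by
        rw [Ideal.span_le]
        intro g hg
        exact hall g hg
      exact hle hp
    have h4 : ∀ s : MvPolynomial (ι ⊕ κ) ℚ,
        aeval w (map (aeval c : MvPolynomial ι ℚ →ₐ[ℚ] K).toRingHom
          (sumAlgEquiv ℚ κ ι (rename Sum.swap s))) =
        aeval (Sum.elim (fun i => algebraMap K Ω (c i)) (Sum.elim w v)) (rename incl s) := by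
      intro s
      induction s using MvPolynomial.induction_on with
      | C a => simp
      | add s t hs ht => simp only [map_add, hs, ht]
      | mul_X s i hs =>
        simp only [map_mul, hs, rename_X]
        congr 1
        rcases i with i | i
        · simp [incl]
        · simp [incl]
    rw [hq']
    rw [h4 p, h3]
  exact h1 ((algebraicIndependent_iff.1 hw) q' h2)

end Pool.Agent.Helper16.M
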